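import Pool.Agent.Y451.FM.Defs

set_option autoImplicit false

/-!
# Statements for project FM: `FIID(ℤⁿ) = MEASURE(ℤⁿ)`
-/

open MeasureTheory

noncomputable section

namespace Pool.Agent.Y451.FM

/-! ## finite information theory -/

/-- entropy of a finite vector of weights -/
def Hent {K : Type} [Fintype K] (p : K → ℝ) : ℝ := ∑ z, Real.negMulLog (p z)

/-- ENT: entropy is between `0` and `log |K|`. -/
def S_ENT : Prop :=
  ∀ (K : Type) [Fintype K] (p : K → ℝ), (∀ z, 0 ≤ p z) → ∑ z, p z = 1 →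
    0 ≤ Hent p ∧ Hent p ≤ Real.log (Fintype.card K)

/-- PIN: `p` is the joint law of `(s, z)`, `q` the law of `s`. The square of the mean total variation
distance between the law of `z` given `s` and the law of `z` is at most the mutual information. -/
def S_PIN : Prop :=
  ∀ (S K : Type) [Fintype S] [Fintype K] (q : S → ℝ) (p : S → K → ℝ),
    (∀ s, 0 ≤ q s) → ∑ s, q s = 1 → (∀ s z, 0 ≤ p s z) → (∀ s, ∑ z, p s z = q s) →
    ((1 / 2) * ∑ s, ∑ z, |p s z - q s * ∑ s', p s' z|) ^ 2 ≤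
      Hent (fun z => ∑ s, p s z) - ∑ s, q s * Hent (fun z => p s z / q s)

/-- MAX: maximal coupling. `q` is a law on `S`, `P l s` are nonnegative weights. -/
def S_MAX : Prop :=
  ∀ (S L : Type) [Fintype S] [Fintype L] [DecidableEq S] (q : S → ℝ) (P : L → S → ℝ),
    (∀ s, 0 ≤ q s) → ∑ s, q s = 1 → (∀ l s, 0 ≤ P l s) →
    ∃ κ : L → S → S → ℝ, (∀ l s s', 0 ≤ κ l s s') ∧
      (∀ l s, ∑ s', κ l s s' = P l s) ∧
      (∀ l s', ∑ s, κ l s s' = (∑ s, P l s) * q s') ∧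
      ∀ l, ∑ s, ∑ s', (if s = s' then 0 else κ l s s') =
        (1 / 2) * ∑ s, |P l s - q s * ∑ s', P l s'|

/-- COU: the coupling lemma. `c = (c_0, …, c_{m-1})` are independent with laws `q i`, and `z` is
a further variable with values in `K`; `p` is the joint law of `(c, z)`. There are `g i ≥ 0` with
`∑ (g i)² ≤ log |K|` such that for every function `h z` of `z` and every further variable `u`
(joint law `P` of `(c, z, u)`) there is a coupling `κ` of the conditional law of `(c, u)` given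
`h z` with the unconditional law of `c`, such that the `i`-th coordinates differ with probability
at most `g i`. -/
def S_COU : Prop :=
  ∀ (m : ℕ) (S K : Type) [Fintype S] [Fintype K] [DecidableEq S] (q : Fin m → S → ℝ)
    (p : (Fin m → S) → K → ℝ), (∀ i s, 0 ≤ q i s) → (∀ i, ∑ s, q i s = 1) →
    (∀ c z, 0 ≤ p c z) → (∀ c, ∑ z, p c z = ∏ i, q i (c i)) →
    ∃ g : Fin m → ℝ, (∀ i, 0 ≤ g i) ∧ ∑ i, g i ^ 2 ≤ Hent (fun z => ∑ c, p c z) ∧
      ∀ (L U : Type) [Fintype L] [Fintype U] [DecidableEq L] (h : K → L)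
        (P : (Fin m → S) → K → U → ℝ), (∀ c z u, 0 ≤ P c z u) → (∀ c z, ∑ u, P c z u = p c z) →
        ∃ κ : L → (Fin m → S) → (Fin m → S) → U → ℝ, (∀ l c c' u, 0 ≤ κ l c c' u) ∧
          (∀ l c u, ∑ c', κ l c c' u = ∑ z, if h z = l then P c z u else 0) ∧
          (∀ l c', ∑ c, ∑ u, κ l c c' u =
            (∑ c, ∑ z, if h z = l then p c z else 0) * ∏ i, q i (c' i)) ∧
          ∀ i, ∑ l, ∑ c, ∑ c', ∑ u, (if c i = c' i then 0 else κ l c c' u) ≤ g i

/-! ## the product space -/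

/-- APX: measurable functions are approximated by functions of finitely many digits. -/
def S_APX : Prop :=
  ∀ (n k : ℕ) (F : Om n → Fin k), Measurable F → ∀ η : ℝ, 0 < η →
    ∃ (r : ℕ) (Fr : (Gp n → Fin (2 ^ r + 1)) → Fin k),
      (∀ c c' : Gp n → Fin (2 ^ r + 1), (∀ v ∈ B n r, c v = c' v) → Fr c = Fr c') ∧
      (PP n).real {b | F b ≠ Fr (fun v => dg r (b v))} ≤ η

/-- PRD: independence and stationarity. -/
def S_PRD : Prop :=
  (∀ r : ℕ, Measurable (dg r)) ∧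
  (∀ (n : ℕ) (g : Gp n), MeasurePreserving (sh g) (PP n) (PP n)) ∧
  ∀ (n r m : ℕ) (e : Fin m → Gp n), Function.Injective e → ∀ c : Fin m → Fin (2 ^ r + 1),
    (PP n).real {b | ∀ i, dg r (b (e i)) = c i} =
      ∏ i, (volume : Measure unitInterval).real {x | dg r x = c i}

/-! ## counting in the group -/

/-- ASY: boundaries of balls are small. -/
def S_ASY : Prop :=
  ∀ (n s : ℕ) (ε : ℝ), 0 < ε → ∃ N₀ : ℕ, ∀ N ≥ N₀,
    ((B n (N + s) \ B n (N - s)).card : ℝ) ≤ ε * ((B n N).card : ℝ)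

/-- CNT: counting. -/
def S_CNT : Prop :=
  (∀ (n N : ℕ) (s : Gp n), s ∈ B n (2 * N) →
    (B n (2 * N)).card ≤ 4 ^ n * ((B n (2 * N)).filter fun w => w + s ∈ B n N).card) ∧
  (∀ (n N : ℕ) (D : Set (Gp n)), (∀ g ∈ D, ∀ h ∈ D, g ≠ h → g - h ∉ B n (2 * N)) →
    ∀ (E : Finset (Gp n)) (z : Gp n), (∀ g ∈ E, g ∈ D ∧ z + g ∈ B n (2 * N)) → E.card ≤ 2 ^ n) ∧
  ∀ n N : ℕ, 0 < (B n N).card ∧ (B n N).card ≤ (B n (2 * N)).card

/-! ## Borel markers -/

/-- MAR: Borel maximal separated sets. -/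
def S_MAR : Prop :=
  ∀ (n : ℕ) (X : Type) [MeasurableSpace X] [StandardBorelSpace X] (a : Gp n → X → X),
    Act n X a → ∀ N : ℕ, ∃ C : Set X, MeasurableSet C ∧
      (∀ x ∈ C, ∀ g ∈ B n N, g ≠ 0 → a g x ∉ C) ∧ ∀ x, ∃ g ∈ B n N, a g x ∈ C

/-! ## one box -/

/-- the values of a configuration on a finite set -/
abbrev Pat (n k : ℕ) (E : Finset (Gp n)) := {v : Gp n // v ∈ E} → Fin k

/-- restriction of a configuration to a finite set -/
def rs {n k : ℕ} (E : Finset (Gp n)) (w : Gp n → Fin k) : Pat n k E := fun v => w v.1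

/-- CPL: the coupling of one box. `D` is the set of deep points, `P c v` the frozen labels,
`κ l c u` the joint weights of the collar pattern `l`, the frozen digits `c` and the filling `u`. -/
def S_CPL : Prop :=
  ∀ (n k ρ : ℕ) (F : Om n → Fin k), Measurable F →
    ∀ (t : ℕ) (ε : ℝ), 0 < ε → ∃ N₀ : ℕ, ∀ N ≥ N₀, ∃ (eps : Gp n → ℝ) (D : Finset (Gp n)),
      (∀ v, 0 ≤ eps v) ∧ ∑ v ∈ B n N, eps v ≤ ε * ((B n N).card : ℝ) ∧
      (∀ v ∈ B n N, v ∉ D → 1 ≤ eps v) ∧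
      ∀ T : Gp n → Rule n k t,
        ∃ (Cs : Type) (_ : Fintype Cs) (q : Cs → ℝ) (P : Cs → Gp n → Fin k)
          (κ : Pat n k (collar n ρ N) → Cs → Pat n k (B n N) → ℝ),
          (∀ c, 0 ≤ q c) ∧ ∑ c, q c = 1 ∧ (∀ l c u, 0 ≤ κ l c u) ∧
          (∀ l c u, κ l c u ≠ 0 →
            0 < (PP n).real {b | rs (collar n ρ N) (tb T (sg F b)) = l ∧
              rs (B n N) (tb T (sg F b)) = u}) ∧
          (∀ l c, ∑ u, κ l c u =
            (PP n).real {b | rs (collar n ρ N) (tb T (sg F b)) = l} * q c) ∧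
          (∀ (v : Gp n) (hv : v ∈ B n N), v ∈ D →
            ∑ l, ∑ c, ∑ u, (if u ⟨v, hv⟩ = P c v then 0 else κ l c u) ≤ eps v) ∧
          ∀ v ∈ B n N, v ∈ D → ∀ y : Fin k,
            ∑ c, q c * (if P c v = y then 0 else 1) ≤
              (PP n).real {b | tb T (sg F b) v ≠ y} + eps v

/-- the type of a box: the local rules and the approximate labels in it -/
abbrev Ty (n k t N : ℕ) := (({v : Gp n // v ∈ B n N}) → Rule n k t) × (Pat n k (B n N))

/-- the type of the box with centre `y` -/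
def tyX {n k : ℕ} {Pr : (Gp n → Fin k) → Prop} {X : Type} [MeasurableSpace X]
    {a : Gp n → X → X} (S : Stage n k Pr X a) (N : ℕ) (y : X) : Ty n k S.t N :=
  (fun v => S.R (a v.1 y), fun v => S.ψ (a v.1 y))

/-- the rules of a type as a function on the whole group -/
def TT {n k t N : ℕ} (d : Fin k) (τ : Ty n k t N) : Gp n → Rule n k t :=
  fun v => if h : v ∈ B n N then τ.1 ⟨v, h⟩ else fun _ => d

/-- the labels of a type as a function on the whole group -/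
def pp {n k t N : ℕ} (d : Fin k) (τ : Ty n k t N) : Gp n → Fin k :=
  fun v => if h : v ∈ B n N then τ.2 ⟨v, h⟩ else d

/-- properties of a filling `Φ` of the box -/
def Fill {n k : ℕ} (ρ N : ℕ) (Pr : (Gp n → Fin k) → Prop)
    (Φ : (Gp n → Fin k) → Gp n → Fin k) : Prop :=
  (∀ τ τ' : Gp n → Fin k, (∀ v ∈ collar n ρ N, τ v = τ' v) → Φ τ = Φ τ') ∧
  (∀ τ : Gp n → Fin k, (∀ g, win n ρ N g → Pr (sh g τ)) →
    (∀ v ∈ collar n ρ N, Φ τ v = τ v) ∧ ∀ g, win n ρ N g → Pr (sh g (Φ τ)))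

/-- BOX: the box lemma. -/
def S_BOX : Prop :=
  ∀ (n k ρ : ℕ) (Pr : (Gp n → Fin k) → Prop), LocP n k ρ Pr →
    ∀ F : Om n → Fin k, Measurable F → (∀ᵐ b ∂PP n, Sol Pr (sg F b)) →
    ∀ (t : ℕ) (ε : ℝ), 0 < ε → ∃ N₀ : ℕ, ∀ N ≥ N₀, ∃ eps : Gp n → ℝ,
      (∀ v, 0 ≤ eps v) ∧ ∑ v ∈ B n N, eps v ≤ ε * ((B n N).card : ℝ) ∧
      ∀ (T : Gp n → Rule n k t) (p : Gp n → Fin k) (M : Gp n → ℝ) (κ : ℝ),
        (∀ v, 0 ≤ M v) → 0 ≤ κ →
        (∀ w, Sol Pr w → ∀ g, win n ρ N g → Pr (sh g (tb T w))) →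
        ∃ (Q : Gp n → Fin k) (Φ : (Gp n → Fin k) → Gp n → Fin k), Fill ρ N Pr Φ ∧
          ∑ v ∈ B n N, M v * ((PP n).real {b | Φ (tb T (sg F b)) v ≠ Q v} +
              κ * (if Q v = p v then 0 else 1)) ≤
            ∑ v ∈ B n N, M v * (eps v +
              κ * ((PP n).real {b | tb T (sg F b) v ≠ p v} + eps v))

/-! ## one step -/

/-- NEW: the next stage, made from fillings of the boxes of radius `N` about the points
`a w c`, `c ∈ C`. -/
def S_NEW : Prop :=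
  ∀ (n k ρ : ℕ) (Pr : (Gp n → Fin k) → Prop), LocP n k ρ Pr →
    ∀ (X : Type) [MeasurableSpace X] [StandardBorelSpace X] (a : Gp n → X → X), Act n X a →
    ∀ (S : Stage n k Pr X a) (N : ℕ), 2 * ρ ≤ N → ∀ (d : Fin k) (C : Set X), MeasurableSet C →
      (∀ x ∈ C, ∀ g ∈ B n (2 * N), g ≠ 0 → a g x ∉ C) →
    ∀ (w : Gp n) (Q : Ty n k S.t N → Gp n → Fin k)
      (Φ : Ty n k S.t N → (Gp n → Fin k) → Gp n → Fin k),
      (∀ y : X, Fill ρ N Pr (Φ (tyX S N y))) →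
    ∃ S' : Stage n k Pr X a,
      (∀ (x : X) (v : Gp n), v ∈ B n N → a (-(v + w)) x ∈ C →
        (∀ ω : Gp n → Fin k, ev (S'.R x) ω =
          Φ (tyX S N (a (-v) x)) (tb (TT d (tyX S N (a (-v) x))) (sh (-v) ω)) v) ∧
        S'.ψ x = Q (tyX S N (a (-v) x)) v) ∧
      ∀ x : X, (∀ v ∈ B n N, a (-(v + w)) x ∉ C) →
        (∀ ω : Gp n → Fin k, ev (S'.R x) ω = ev (S.R x) ω) ∧ S'.ψ x = S.ψ x

/-- the gain of one step -/
def gam (n : ℕ) : ℝ := 1 / (2 * 4 ^ n)

/-- STEP: one step of the construction. -/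
def S_STEP : Prop :=
  ∀ (n k ρ : ℕ) (Pr : (Gp n → Fin k) → Prop), LocP n k ρ Pr →
    ∀ F : Om n → Fin k, Measurable F → (∀ᵐ b ∂PP n, Sol Pr (sg F b)) →
    ∀ (X : Type) [MeasurableSpace X] [StandardBorelSpace X] (a : Gp n → X → X), Act n X a →
    ∀ (μ : Measure X) [IsFiniteMeasure μ] (S : Stage n k Pr X a) (δ : ℝ), 0 < δ →
    ∃ S' : Stage n k Pr X a,
      ∫ x, S'.err F x ∂μ + gam n * μ.real {x | S'.ψ x ≠ S.ψ x} ≤
        (1 - gam n) * ∫ x, S.err F x ∂μ + δ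

/-- LIM: the limit of the construction. -/
def S_LIM : Prop :=
  S_STEP → ∀ (n k ρ : ℕ) (Pr : (Gp n → Fin k) → Prop), LocP n k ρ Pr →
    ∀ F : Om n → Fin k, Measurable F → (∀ᵐ b ∂PP n, Sol Pr (sg F b)) →
    ∀ (X : Type) [MeasurableSpace X] [StandardBorelSpace X] (a : Gp n → X → X), Act n X a →
    ∀ (μ : Measure X) [IsProbabilityMeasure μ],
    ∃ f : X → Fin k, Measurable f ∧ ∀ᵐ x ∂μ, Pr (fun v => f (a v x))

/-! ## the final theorem -/

/-- `f` is a measurable solution of the problem with radius `r` and allowed patterns `P`. -/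
def Solvable {n k r : ℕ} (P : Set ({g : Fin n → ℤ // ∀ i, |g i| ≤ (r : ℤ)} → Fin k))
    (X : Type) [MeasurableSpace X] (a : (Fin n → ℤ) → X → X) (μ : Measure X) : Prop :=
  ∃ f : X → Fin k, Measurable f ∧
    ∀ᵐ x ∂μ, (fun g : {g : Fin n → ℤ // ∀ i, |g i| ≤ (r : ℤ)} => f (a g.1 x)) ∈ P

/-- the free part of the shift on `[0,1]^{ℤⁿ}` -/
abbrev Free (n : ℕ) := {x : (Fin n → ℤ) → unitInterval //
  ∀ g : Fin n → ℤ, (fun h => x (h + g)) = x → g = 0}

/-- the shift on the free part -/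
def shF {n : ℕ} (g : Fin n → ℤ) (x : Free n) : Free n :=
  ⟨fun h => x.1 (h + g), fun g' h' => x.2 g' (by
    funext h
    have := congrFun h' (h - g)
    simp only at this
    rw [show h - g + g' + g = h + g' by abel, sub_add_cancel] at this
    exact this)⟩

/-- FIN: the final theorem. -/
def S_FIN : Prop :=
  (S_STEP → S_LIM → S_PRD → ∀ (n k r : ℕ)
    (P : Set ({g : Fin n → ℤ // ∀ i, |g i| ≤ (r : ℤ)} → Fin k)),
    (Solvable P (Free n) shF (Measure.comap Subtype.val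
        (Measure.infinitePi fun _ : Fin n → ℤ => (volume : Measure unitInterval))) ↔
      ∀ (X : Type) [MeasurableSpace X] [StandardBorelSpace X] (a : (Fin n → ℤ) → X → X),
        (∀ x, a 0 x = x) → (∀ g h x, a (g + h) x = a g (a h x)) → (∀ g, Measurable (a g)) →
        (∀ g x, a g x = x → g = 0) →
        ∀ (μ : Measure X) [IsProbabilityMeasure μ], Solvable P X a μ))

end Pool.Agent.Y451.FM

end
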