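import Mathlib

set_option autoImplicit false

/-!
# Definitions for project FM: `FIID(ℤⁿ) = MEASURE(ℤⁿ)`
-/

open MeasureTheory

noncomputable section

namespace Pool.Agent.Y451.FM

/-- the group `ℤⁿ` -/
abbrev Gp (n : ℕ) := Fin n → ℤ

/-- the ball of radius `N` about `0` in the sup norm -/
def B (n N : ℕ) : Finset (Gp n) := Finset.Icc (fun _ => -(N : ℤ)) (fun _ => (N : ℤ))

theorem mem_B {n N : ℕ} {v : Gp n} : v ∈ B n N ↔ ∀ i, |v i| ≤ (N : ℤ) := by
  unfold B
  rw [Finset.mem_Icc]
  constructor
  · rintro ⟨h1, h2⟩ i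
    exact abs_le.2 ⟨h1 i, h2 i⟩
  · intro h
    exact ⟨fun i => (abs_le.1 (h i)).1, fun i => (abs_le.1 (h i)).2⟩

/-- the shift: `(g • w)(h) = w (h + g)` -/
def sh {n : ℕ} {A : Type} (g : Gp n) (w : Gp n → A) : Gp n → A := fun h => w (h + g)

/-- the probability space of independent uniform labels -/
abbrev Om (n : ℕ) := Gp n → unitInterval

/-- the product of Lebesgue measures -/
def PP (n : ℕ) : Measure (Om n) :=
  Measure.infinitePi (fun _ : Gp n => (volume : Measure unitInterval))

instance (n : ℕ) : IsProbabilityMeasure (PP n) := by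
  unfold PP; infer_instance

/-- the predicate `Pr` on configurations depends only on the ball of radius `ρ` -/
def LocP (n k ρ : ℕ) (Pr : (Gp n → Fin k) → Prop) : Prop :=
  ∀ w w' : Gp n → Fin k, (∀ v ∈ B n ρ, w v = w' v) → Pr w → Pr w'

/-- correct configurations -/
def Sol {n k : ℕ} (Pr : (Gp n → Fin k) → Prop) (w : Gp n → Fin k) : Prop := ∀ g, Pr (sh g w)

/-- the configuration given by the factor map `F` -/
def sg {n k : ℕ} (F : Om n → Fin k) (b : Om n) : Gp n → Fin k := fun v => F (sh v b)

/-- local rules of radius `t` -/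
abbrev Rule (n k t : ℕ) := ({v : Gp n // v ∈ B n t} → Fin k) → Fin k

/-- value of a local rule at a configuration -/
def ev {n k t : ℕ} (r : Rule n k t) (w : Gp n → Fin k) : Fin k := r (fun v => w v.1)

/-- configuration obtained by applying the rule `T v` at the position `v` -/
def tb {n k t : ℕ} (T : Gp n → Rule n k t) (w : Gp n → Fin k) : Gp n → Fin k :=
  fun v => ev (T v) (sh v w)

/-- the window of radius `ρ` about `g` is contained in `B n N` -/
def win (n ρ N : ℕ) (g : Gp n) : Prop := ∀ v ∈ B n ρ, v + g ∈ B n N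

/-- the collar of width `2 ρ` of the ball of radius `N` -/
def collar (n ρ N : ℕ) : Finset (Gp n) := B n N \ B n (N - 2 * ρ)

/-- free measurable actions of `ℤⁿ` -/
structure Act (n : ℕ) (X : Type) [MeasurableSpace X] (a : Gp n → X → X) : Prop where
  zero : ∀ x, a 0 x = x
  add : ∀ g h x, a (g + h) x = a g (a h x)
  meas : ∀ g, Measurable (a g)
  free : ∀ g x, a g x = x → g = 0

/-- A stage of the construction: a measurable family of local rules `R`, of radius `t`, which maps
correct configurations to correct configurations, and an approximate labelling `ψ`. -/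
structure Stage (n k : ℕ) (Pr : (Gp n → Fin k) → Prop) (X : Type) [MeasurableSpace X]
    (a : Gp n → X → X) where
  t : ℕ
  R : X → Rule n k t
  ψ : X → Fin k
  mR : Measurable R
  mψ : Measurable ψ
  val : ∀ x w, Sol Pr w → Sol Pr (fun u => ev (R (a u x)) (sh u w))

/-- probability that the random label differs from the approximate label -/
def Stage.err {n k : ℕ} {Pr : (Gp n → Fin k) → Prop} {X : Type} [MeasurableSpace X]
    {a : Gp n → X → X} (S : Stage n k Pr X a) (F : Om n → Fin k) (x : X) : ℝ :=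
  (PP n).real {b | ev (S.R x) (sg F b) ≠ S.ψ x}

/-- dyadic digits: the interval of length `2 ^ (-r)` containing `x` -/
def dg (r : ℕ) (x : unitInterval) : Fin (2 ^ r + 1) :=
  ⟨⌊(x : ℝ) * 2 ^ r⌋₊, by
    have h1 : (x : ℝ) * 2 ^ r ≤ 2 ^ r := by
      have := x.2.2
      have h2 : (0 : ℝ) < 2 ^ r := by positivity
      nlinarith
    have h3 : ⌊(x : ℝ) * 2 ^ r⌋₊ ≤ ⌊((2 ^ r : ℕ) : ℝ)⌋₊ := Nat.floor_le_floor (by push_cast; exact h1)
    rw [Nat.floor_natCast] at h3
    omega⟩

end Pool.Agent.Y451.FM

end
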