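import Pool.Agent.Y451.FM.Step2
import Pool.Agent.Y168.FM.Cnt
import Pool.Agent.Y168.FM.New
import Pool.Agent.Y240.FM.Cou
import Pool.Agent.Y314.FM.Cpl
import Pool.Agent.Y383.FM.Lim
import Pool.Agent.Y433.FM.Mar
import Pool.Agent.Y473.FM.Box
import Pool.Agent.Y473.FM.Fin
import Pool.Agent.Y801.FM.Ent
import Pool.Agent.Y801.FM.Max
import Pool.Agent.Y801.FM.Pin
import Pool.Agent.Y972.FM.Apx
import Pool.Agent.Y972.FM.Prd

set_option autoImplicit false

/-!
# `FIID(ℤⁿ) = MEASURE(ℤⁿ)`: assembly
-/

open MeasureTheory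

noncomputable section

namespace Pool.Agent.Y451.FM

theorem coupling : S_CPL :=
  Pool.Agent.Y314.FM.done
    (Pool.Agent.Y240.FM.done Pool.Agent.Y801.FM.Pin.done Pool.Agent.Y801.FM.Max.done
      Pool.Agent.Y801.FM.Ent.done)
    Pool.Agent.Y801.FM.Ent.done Pool.Agent.Y972.FM.Apx.done Pool.Agent.Y972.FM.done
    Pool.Agent.Y168.FM.doneASY

theorem oneStep : S_STEP :=
  step Pool.Agent.Y168.FM.done (Pool.Agent.Y473.FM.done coupling)
    Pool.Agent.Y433.FM.Mar.done Pool.Agent.Y168.FM.doneCNT Pool.Agent.Y972.FM.done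

/-- **Main theorem.** A local problem on `ℤⁿ` has a measurable solution on the free part of the
shift on `[0,1]^{ℤⁿ}` with the product of Lebesgue measures if and only if it has a measurable
solution for every free Borel action on a standard Borel space and every Borel probability
measure. -/
theorem main (n k r : ℕ) (P : Set ({g : Fin n → ℤ // ∀ i, |g i| ≤ (r : ℤ)} → Fin k)) :
    Solvable P (Free n) shF (Measure.comap Subtype.val
        (Measure.infinitePi fun _ : Fin n → ℤ => (volume : Measure unitInterval))) ↔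
      ∀ (X : Type) [MeasurableSpace X] [StandardBorelSpace X] (a : (Fin n → ℤ) → X → X),
        (∀ x, a 0 x = x) → (∀ g h x, a (g + h) x = a g (a h x)) → (∀ g, Measurable (a g)) →
        (∀ g x, a g x = x → g = 0) →
        ∀ (μ : Measure X) [IsProbabilityMeasure μ], Solvable P X a μ :=
  Pool.Agent.Y473.FMF.done oneStep
    (Pool.Agent.Y383.FM.done Pool.Agent.Y972.FM.done) Pool.Agent.Y972.FM.done n k r P

end Pool.Agent.Y451.FM

end
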