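import Pool.Agent.Y451.FM.Stm

set_option autoImplicit false

/-! # One step of the construction: averaging over the translates of the markers -/

open MeasureTheory

noncomputable section

namespace Pool.Agent.Y451.FM

theorem sh_sg {n k : ℕ} (F : Om n → Fin k) (g : Gp n) (b : Om n) :
    sh g (sg F b) = sg F (sh g b) := by
  funext h
  unfold sh sg sh
  congr 1
  funext u
  simp only
  rw [add_assoc]

/-- the shift as a measurable equivalence -/
def shE (hP : S_PRD) {n : ℕ} (g : Gp n) : Om n ≃ᵐ Om n where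
  toFun := sh g
  invFun := sh (-g)
  left_inv b := by funext h; simp [sh]
  right_inv b := by funext h; simp [sh]
  measurable_toFun := (hP.2.1 n g).measurable
  measurable_invFun := (hP.2.1 n (-g)).measurable

/-- stationarity -/
theorem stat (hP : S_PRD) {n k : ℕ} (F : Om n → Fin k) (g : Gp n) (E : (Gp n → Fin k) → Prop) :
    (PP n).real {b | E (sh g (sg F b))} = (PP n).real {b | E (sg F b)} := by
  have h1 : MeasurePreserving (shE hP g) (PP n) (PP n) := hP.2.1 n g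
  have h2 := h1.measure_preimage_equiv {b | E (sg F b)}
  unfold Measure.real
  rw [← h2]
  congr 2
  ext b
  simp only [Set.mem_ofPred_eq, Set.mem_preimage]
  rw [sh_sg]
  rfl

section combi

variable {n N : ℕ} {X : Type} [MeasurableSpace X] {a : Gp n → X → X} {C : Set X}

theorem neg_mem_B {n N : ℕ} {v : Gp n} (h : v ∈ B n N) : -v ∈ B n N := by
  rw [mem_B] at h ⊢
  intro i
  rw [Pi.neg_apply, abs_neg]
  exact h i

theorem sub_mem_B {n N : ℕ} {v w : Gp n} (h : v ∈ B n N) (h' : w ∈ B n N) :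
    v - w ∈ B n (2 * N) := by
  rw [mem_B] at h h' ⊢
  intro i
  have h1 := abs_le.1 (h i)
  have h2 := abs_le.1 (h' i)
  rw [Pi.sub_apply, abs_le]
  push_cast
  constructor <;> linarith [h1.1, h1.2, h2.1, h2.2]

theorem pos_unique (ha : Act n X a) (hsep : ∀ x ∈ C, ∀ g ∈ B n (2 * N), g ≠ 0 → a g x ∉ C)
    {w : Gp n} {x : X} {v v' : Gp n} (hv : v ∈ B n N) (hv' : v' ∈ B n N)
    (h : a (-(v + w)) x ∈ C) (h' : a (-(v' + w)) x ∈ C) : v = v' := by
  by_contra hne
  refine hsep _ h (v - v') (sub_mem_B hv hv') (sub_ne_zero.2 hne) ?_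
  rw [← ha.add]
  rw [show v - v' + -(v + w) = -(v' + w) by abel]
  exact h'

theorem count_le (hC : S_CNT) (ha : Act n X a)
    (hsep : ∀ x ∈ C, ∀ g ∈ B n (2 * N), g ≠ 0 → a g x ∉ C) (x : X) (v : Gp n)
    [DecidablePred fun w => a (-(v + w)) x ∈ C] :
    ((B n (2 * N)).filter fun w => a (-(v + w)) x ∈ C).card ≤ 2 ^ n := by
  classical
  have h := hC.2.1 n N {g | a g x ∈ C} (by
    intro g hg h hh hne hmem
    refine hsep _ hh (g - h) hmem (sub_ne_zero.2 hne) ?_
    rw [← ha.add, sub_add_cancel]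
    exact hg) (((B n (2 * N)).filter fun w => a (-(v + w)) x ∈ C).image fun w => -(v + w)) v
  rw [Finset.card_image_of_injective] at h
  · apply h
    intro g hg
    rw [Finset.mem_image] at hg
    obtain ⟨w, hw, rfl⟩ := hg
    rw [Finset.mem_filter] at hw
    refine ⟨hw.2, ?_⟩
    rw [show v + -(v + w) = -w by abel]
    exact neg_mem_B hw.1
  · intro w w' hww
    simpa using hww

theorem le_count (hC : S_CNT) (hmax : ∀ x, ∃ g ∈ B n (2 * N), a g x ∈ C) (x : X)
    [DecidablePred fun w => ∃ v ∈ B n N, a (-(v + w)) x ∈ C] :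
    (B n (2 * N)).card ≤
      4 ^ n * ((B n (2 * N)).filter fun w => ∃ v ∈ B n N, a (-(v + w)) x ∈ C).card := by
  classical
  obtain ⟨s, hs, hsC⟩ := hmax x
  refine (hC.1 n N s hs).trans (Nat.mul_le_mul_left _ (Finset.card_le_card ?_))
  intro w hw
  rw [Finset.mem_filter] at hw ⊢
  refine ⟨hw.1, -(w + s), neg_mem_B hw.2, ?_⟩
  rw [show -(-(w + s) + w) = s by abel]
  exact hsC

end combi

open Classical in
/-- the pointwise majorant -/
def maj {n : ℕ} {X : Type} (a : Gp n → X → X) (C : Set X) (N : ℕ) (eps : Gp n → ℝ) (γ : ℝ)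
    (e : X → ℝ) (w : Gp n) (x : X) : ℝ :=
  ∑ v ∈ B n N, (if a (-(v + w)) x ∈ C then (1 + γ) * eps v + γ * e x else 0) +
    (if ∃ v ∈ B n N, a (-(v + w)) x ∈ C then 0 else e x)

open Classical in
theorem maj_eq {n N : ℕ} {X : Type} [MeasurableSpace X] {a : Gp n → X → X} {C : Set X}
    (ha : Act n X a) (hsep : ∀ x ∈ C, ∀ g ∈ B n (2 * N), g ≠ 0 → a g x ∉ C)
    (eps : Gp n → ℝ) (γ : ℝ) (e : X → ℝ) (w : Gp n) (x : X) :
    maj a C N eps γ e w x = (1 + γ) * ∑ v ∈ B n N, (if a (-(v + w)) x ∈ C then eps v else 0) +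
      e x - (1 - γ) * (if ∃ v ∈ B n N, a (-(v + w)) x ∈ C then e x else 0) := by
  unfold maj
  by_cases h : ∃ v ∈ B n N, a (-(v + w)) x ∈ C
  · obtain ⟨v₀, hv₀, hC₀⟩ := h
    have hu : ∀ v ∈ B n N, v ≠ v₀ → ¬ a (-(v + w)) x ∈ C := fun v hv hne hC =>
      hne (pos_unique ha hsep hv hv₀ hC hC₀)
    rw [Finset.sum_eq_single_of_mem v₀ hv₀ (fun v hv hne => if_neg (hu v hv hne)),
      Finset.sum_eq_single_of_mem v₀ hv₀ (fun v hv hne => if_neg (hu v hv hne)), if_pos hC₀,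
      if_pos hC₀, if_pos ⟨v₀, hv₀, hC₀⟩, if_pos ⟨v₀, hv₀, hC₀⟩]
    ring
  · have hu : ∀ v ∈ B n N, ¬ a (-(v + w)) x ∈ C := fun v hv hC => h ⟨v, hv, hC⟩
    rw [Finset.sum_eq_zero (fun v hv => if_neg (hu v hv)),
      Finset.sum_eq_zero (fun v hv => if_neg (hu v hv)), if_neg h, if_neg h]
    ring

theorem sum_maj_le (hC : S_CNT) {n N : ℕ} {X : Type} [MeasurableSpace X] {a : Gp n → X → X}
    {C : Set X} (ha : Act n X a) (hsep : ∀ x ∈ C, ∀ g ∈ B n (2 * N), g ≠ 0 → a g x ∉ C)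
    (hmax : ∀ x, ∃ g ∈ B n (2 * N), a g x ∈ C)
    (eps : Gp n → ℝ) (heps : ∀ v, 0 ≤ eps v) (e : X → ℝ) (he : ∀ x, 0 ≤ e x) (x : X) :
    ∑ w ∈ B n (2 * N), maj a C N eps (gam n) e w x ≤
      ((B n (2 * N)).card : ℝ) * ((1 - gam n) * e x) + 2 * 2 ^ n * ∑ v ∈ B n N, eps v := by
  classical
  have hg0 : 0 < gam n := by unfold gam; positivity
  have hg1 : gam n ≤ 1 / 2 := by
    unfold gam
    rw [div_le_div_iff₀ (by positivity) (by norm_num)]
    have : (1 : ℝ) ≤ 4 ^ n := one_le_pow₀ (by norm_num)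
    linarith
  have hg4 : gam n * (2 * 4 ^ n) = 1 := by
    unfold gam
    field_simp
  simp_rw [maj_eq ha hsep]
  rw [Finset.sum_sub_distrib, Finset.sum_add_distrib, ← Finset.mul_sum, ← Finset.mul_sum,
    Finset.sum_const, nsmul_eq_mul, Finset.sum_comm]
  have h1 : ∑ v ∈ B n N, ∑ w ∈ B n (2 * N), (if a (-(v + w)) x ∈ C then eps v else 0) ≤
      2 ^ n * ∑ v ∈ B n N, eps v := by
    rw [Finset.mul_sum]
    refine Finset.sum_le_sum fun v _ => ?_
    rw [← Finset.sum_filter, Finset.sum_const, nsmul_eq_mul]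
    refine mul_le_mul_of_nonneg_right ?_ (heps v)
    have := count_le hC ha hsep x v
    exact_mod_cast this
  have h2 : ((B n (2 * N)).card : ℝ) * e x ≤ 4 ^ n * ∑ w ∈ B n (2 * N),
      (if ∃ v ∈ B n N, a (-(v + w)) x ∈ C then e x else 0) := by
    rw [← Finset.sum_filter, Finset.sum_const, nsmul_eq_mul, ← mul_assoc]
    refine mul_le_mul_of_nonneg_right ?_ (he x)
    have := le_count hC hmax x
    exact_mod_cast this
  set s1 := ∑ v ∈ B n N, ∑ w ∈ B n (2 * N), (if a (-(v + w)) x ∈ C then eps v else 0)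
  set s2 := ∑ w ∈ B n (2 * N), (if ∃ v ∈ B n N, a (-(v + w)) x ∈ C then e x else 0)
  set s3 := ∑ v ∈ B n N, eps v
  set m : ℝ := ((B n (2 * N)).card : ℝ)
  have h3 : 0 ≤ s3 := Finset.sum_nonneg fun v _ => heps v
  have h4 : (1 + gam n) * s1 ≤ 2 * 2 ^ n * s3 := by
    calc (1 + gam n) * s1 ≤ (1 + gam n) * (2 ^ n * s3) :=
          mul_le_mul_of_nonneg_left h1 (by linarith)
      _ ≤ 2 * (2 ^ n * s3) := mul_le_mul_of_nonneg_right (by linarith) (by positivity)
      _ = _ := by ring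
  have h5 : gam n * (m * e x) ≤ (1 - gam n) * s2 := by
    have h6 : 0 ≤ s2 := by
      refine Finset.sum_nonneg fun w _ => ?_
      split_ifs
      · exact he x
      · exact le_rfl
    have h7 : gam n * (m * e x) ≤ gam n * (4 ^ n * s2) := mul_le_mul_of_nonneg_left h2 hg0.le
    have h8 : gam n * (4 ^ n * s2) = (1 / 2) * s2 := by
      have : gam n * 4 ^ n = 1 / 2 := by linarith
      rw [← mul_assoc, this]
    rw [h8] at h7
    have h9 : (1 / 2) * s2 ≤ (1 - gam n) * s2 := mul_le_mul_of_nonneg_right (by linarith) h6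
    linarith
  have h10 : m * ((1 - gam n) * e x) = m * e x - gam n * (m * e x) := by ring
  rw [h10]
  linarith

end Pool.Agent.Y451.FM

end
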