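import Pool.Agent.Y451.FM.Step

set_option autoImplicit false

/-! # One step of the construction: the cost of one translate -/

open MeasureTheory

noncomputable section

namespace Pool.Agent.Y451.FM

section

variable {n k ρ : ℕ} {Pr : (Gp n → Fin k) → Prop} {X : Type} [MeasurableSpace X]
  {a : Gp n → X → X}

theorem measurable_tyX (ha : Act n X a) (S : Stage n k Pr X a) (N : ℕ) :
    Measurable (tyX S N) := by
  unfold tyX
  refine Measurable.prodMk ?_ ?_
  · exact measurable_pi_lambda _ fun v => S.mR.comp (ha.meas v.1)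
  · exact measurable_pi_lambda _ fun v => S.mψ.comp (ha.meas v.1)

theorem err_eq (S : Stage n k Pr X a) (F : Om n → Fin k) :
    S.err F = (fun p : Rule n k S.t × Fin k => (PP n).real {b | ev p.1 (sg F b) ≠ p.2}) ∘
      fun x => (S.R x, S.ψ x) := rfl

theorem measurable_err (S : Stage n k Pr X a) (F : Om n → Fin k) : Measurable (S.err F) := by
  rw [err_eq]
  exact (measurable_of_countable _).comp (S.mR.prodMk S.mψ)

theorem err_nonneg (S : Stage n k Pr X a) (F : Om n → Fin k) (x : X) : 0 ≤ S.err F x :=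
  measureReal_nonneg

theorem err_le_one (S : Stage n k Pr X a) (F : Om n → Fin k) (x : X) : S.err F x ≤ 1 :=
  measureReal_le_one

theorem integrable_err (S : Stage n k Pr X a) (F : Om n → Fin k) (μ : Measure X)
    [IsFiniteMeasure μ] : Integrable (S.err F) μ := by
  refine Integrable.of_bound (measurable_err S F).aestronglyMeasurable 1 ?_
  refine Filter.Eventually.of_forall fun x => ?_
  rw [Real.norm_eq_abs, abs_of_nonneg (err_nonneg S F x)]
  exact err_le_one S F x

/-- the rules of the type of the box about `y` -/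
theorem tb_TT (ha : Act n X a) (S : Stage n k Pr X a) {N : ℕ} (d : Fin k) (x : X)
    {v : Gp n} (hv : v ∈ B n N) (ω : Gp n → Fin k) :
    tb (TT d (tyX S N (a (-v) x))) ω v = ev (S.R x) (sh v ω) := by
  unfold tb TT tyX
  rw [dif_pos hv]
  simp only
  rw [← ha.add, add_neg_cancel, ha.zero]

theorem pp_ty (ha : Act n X a) (S : Stage n k Pr X a) {N : ℕ} (d : Fin k) (x : X)
    {v : Gp n} (hv : v ∈ B n N) :
    pp d (tyX S N (a (-v) x)) v = S.ψ x := by
  unfold pp tyX
  rw [dif_pos hv]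
  simp only
  rw [← ha.add, add_neg_cancel, ha.zero]

theorem eold_eq (hP : S_PRD) (ha : Act n X a) (S : Stage n k Pr X a) (F : Om n → Fin k) {N : ℕ}
    (d : Fin k) (x : X) {v : Gp n} (hv : v ∈ B n N) :
    (PP n).real {b | tb (TT d (tyX S N (a (-v) x))) (sg F b) v ≠ pp d (tyX S N (a (-v) x)) v} =
      S.err F x := by
  simp_rw [tb_TT ha S d x hv, pp_ty ha S d x hv]
  exact stat hP F v fun ω => ev (S.R x) ω ≠ S.ψ x

theorem valid_TT (hloc : LocP n k ρ Pr) (S : Stage n k Pr X a) (N : ℕ) (d : Fin k)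
    (y : X) (ω : Gp n → Fin k) (hω : Sol Pr ω) (g : Gp n) (hg : win n ρ N g) :
    Pr (sh g (tb (TT d (tyX S N y)) ω)) := by
  have h := S.val y ω hω g
  refine hloc _ _ (fun v hv => ?_) h
  have h1 := hg v hv
  unfold sh tb TT tyX
  rw [dif_pos h1]
  rfl

variable {C : Set X} {N : ℕ}

/-- a sum over positions -/
theorem pos_sum (ha : Act n X a) (hsep : ∀ x ∈ C, ∀ g ∈ B n (2 * N), g ≠ 0 → a g x ∉ C)
    {w : Gp n} {x : X} {v₀ : Gp n} (hv₀ : v₀ ∈ B n N) (hC₀ : a (-(v₀ + w)) x ∈ C)
    (c : Gp n → ℝ) [DecidablePred fun v => a (-(v + w)) x ∈ C] :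
    ∑ v ∈ B n N, (if a (-(v + w)) x ∈ C then c v else 0) = c v₀ := by
  rw [Finset.sum_eq_single_of_mem v₀ hv₀ (fun v hv hne => if_neg fun hC =>
    hne (pos_unique ha hsep hv hv₀ hC hC₀)), if_pos hC₀]

open Classical in
/-- integral of a function of the type and of the position -/
theorem int_types (ha : Act n X a) (hCm : MeasurableSet C) (S : Stage n k Pr X a) (μ : Measure X)
    [IsFiniteMeasure μ] (w : Gp n) (c : Ty n k S.t N → Gp n → ℝ) :
    Integrable (fun x => ∑ v ∈ B n N, (if a (-(v + w)) x ∈ C then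
      c (tyX S N (a (-v) x)) v else 0)) μ ∧
    ∫ x, ∑ v ∈ B n N, (if a (-(v + w)) x ∈ C then c (tyX S N (a (-v) x)) v else 0) ∂μ =
      ∑ τ, ∑ v ∈ B n N, μ.real {x | a (-(v + w)) x ∈ C ∧ tyX S N (a (-v) x) = τ} * c τ v := by
  have hm : ∀ (v : Gp n) (τ : Ty n k S.t N),
      MeasurableSet {x | a (-(v + w)) x ∈ C ∧ tyX S N (a (-v) x) = τ} := fun v τ =>
    ((ha.meas _) hCm).inter (((measurable_tyX ha S N).comp (ha.meas _))
      (measurableSet_singleton τ))
  have h1 : ∀ x, ∑ v ∈ B n N, (if a (-(v + w)) x ∈ C then c (tyX S N (a (-v) x)) v else 0) =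
      ∑ τ, ∑ v ∈ B n N, Set.indicator {x | a (-(v + w)) x ∈ C ∧ tyX S N (a (-v) x) = τ}
        (fun _ => c τ v) x := by
    intro x
    rw [Finset.sum_comm]
    refine Finset.sum_congr rfl fun v _ => ?_
    by_cases h : a (-(v + w)) x ∈ C
    · rw [if_pos h, Finset.sum_eq_single (tyX S N (a (-v) x))]
      · rw [Set.indicator_of_mem]
        exact ⟨h, rfl⟩
      · intro τ _ hne
        rw [Set.indicator_of_notMem]
        rintro ⟨-, h2⟩
        exact hne h2.symm
      · intro h2
        exact absurd (Finset.mem_univ _) h2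
    · rw [if_neg h, Finset.sum_eq_zero]
      intro τ _
      rw [Set.indicator_of_notMem]
      rintro ⟨h2, -⟩
      exact h h2
  have hi : ∀ (v : Gp n) (τ : Ty n k S.t N),
      Integrable (Set.indicator {x | a (-(v + w)) x ∈ C ∧ tyX S N (a (-v) x) = τ}
        (fun _ => c τ v)) μ := fun v τ => (integrable_const _).indicator (hm v τ)
  simp_rw [h1]
  refine ⟨integrable_finsetSum _ fun τ _ => integrable_finsetSum _ fun v _ => hi v τ, ?_⟩
  rw [integral_finsetSum _ fun τ _ => integrable_finsetSum _ fun v _ => hi v τ]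
  refine Finset.sum_congr rfl fun τ _ => ?_
  rw [integral_finsetSum _ fun v _ => hi v τ]
  refine Finset.sum_congr rfl fun v _ => ?_
  rw [integral_indicator_const _ (hm v τ), smul_eq_mul]

theorem measurableSet_cov (ha : Act n X a) (hCm : MeasurableSet C) (w : Gp n) :
    MeasurableSet {x | ∃ v ∈ B n N, a (-(v + w)) x ∈ C} := by
  have : {x | ∃ v ∈ B n N, a (-(v + w)) x ∈ C} = ⋃ v ∈ B n N, (a (-(v + w))) ⁻¹' C := by
    ext x
    simp
  rw [this]
  exact Finset.measurableSet_biUnion _ fun v _ => ha.meas _ hCm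

open Classical in
theorem integrable_unc (ha : Act n X a) (hCm : MeasurableSet C) (S : Stage n k Pr X a)
    (F : Om n → Fin k) (μ : Measure X) [IsFiniteMeasure μ] (w : Gp n) :
    Integrable (fun x => if ∃ v ∈ B n N, a (-(v + w)) x ∈ C then 0 else S.err F x) μ := by
  have h := (integrable_err S F μ).indicator (measurableSet_cov (N := N) ha hCm w).compl
  refine h.congr (Filter.Eventually.of_forall fun x => ?_)
  by_cases hx : ∃ v ∈ B n N, a (-(v + w)) x ∈ C
  · rw [Set.indicator_of_notMem (by simpa using hx)]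
    simp only
    rw [if_pos hx]
  · rw [Set.indicator_of_mem (by simpa using hx)]
    simp only
    rw [if_neg hx]

open Classical in
/-- the cost of one translate -/
theorem one (hNEW : S_NEW) (hPRD : S_PRD) [StandardBorelSpace X] (hloc : LocP n k ρ Pr)
    (F : Om n → Fin k) (hF : Measurable F) (ha : Act n X a) (μ : Measure X) [IsFiniteMeasure μ]
    (S : Stage n k Pr X a) (hN : 2 * ρ ≤ N) (d : Fin k) (hCm : MeasurableSet C)
    (hsep : ∀ x ∈ C, ∀ g ∈ B n (2 * N), g ≠ 0 → a g x ∉ C) (eps : Gp n → ℝ)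
    (hbox : ∀ (T : Gp n → Rule n k S.t) (p : Gp n → Fin k) (M : Gp n → ℝ) (κ : ℝ),
        (∀ v, 0 ≤ M v) → 0 ≤ κ →
        (∀ w, Sol Pr w → ∀ g, win n ρ N g → Pr (sh g (tb T w))) →
        ∃ (Q : Gp n → Fin k) (Φ : (Gp n → Fin k) → Gp n → Fin k), Fill ρ N Pr Φ ∧
          ∑ v ∈ B n N, M v * ((PP n).real {b | Φ (tb T (sg F b)) v ≠ Q v} +
              κ * (if Q v = p v then 0 else 1)) ≤
            ∑ v ∈ B n N, M v * (eps v +
              κ * ((PP n).real {b | tb T (sg F b) v ≠ p v} + eps v)))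
    (w : Gp n) :
    ∃ S' : Stage n k Pr X a,
      ∫ x, S'.err F x ∂μ + gam n * μ.real {x | S'.ψ x ≠ S.ψ x} ≤
        ∫ x, maj a C N eps (gam n) (S.err F) w x ∂μ := by
  have hg0 : 0 ≤ gam n := by unfold gam; positivity
  have hch : ∀ τ : Ty n k S.t N, ∃ (Q : Gp n → Fin k) (Φ : (Gp n → Fin k) → Gp n → Fin k),
      ((∃ y, tyX S N y = τ) → Fill ρ N Pr Φ) ∧
      ∑ v ∈ B n N, μ.real {x | a (-(v + w)) x ∈ C ∧ tyX S N (a (-v) x) = τ} *
          ((PP n).real {b | Φ (tb (TT d τ) (sg F b)) v ≠ Q v} +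
            gam n * (if Q v = pp d τ v then 0 else 1)) ≤
        ∑ v ∈ B n N, μ.real {x | a (-(v + w)) x ∈ C ∧ tyX S N (a (-v) x) = τ} * (eps v +
              gam n * ((PP n).real {b | tb (TT d τ) (sg F b) v ≠ pp d τ v} + eps v)) := by
    intro τ
    by_cases hτ : ∃ y, tyX S N y = τ
    · obtain ⟨y, rfl⟩ := hτ
      obtain ⟨Q, Φ, h1, h2⟩ := hbox (TT d (tyX S N y)) (pp d (tyX S N y))
        (fun v => μ.real {x | a (-(v + w)) x ∈ C ∧ tyX S N (a (-v) x) = tyX S N y}) (gam n)
        (fun v => measureReal_nonneg) hg0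
        (fun ω hω g hg => valid_TT hloc S N d y ω hω g hg)
      exact ⟨Q, Φ, fun _ => h1, h2⟩
    · refine ⟨fun _ => d, fun τ => τ, fun h => absurd h hτ, ?_⟩
      have h0 : ∀ v : Gp n, μ.real {x | a (-(v + w)) x ∈ C ∧ tyX S N (a (-v) x) = τ} = 0 := by
        intro v
        have : {x | a (-(v + w)) x ∈ C ∧ tyX S N (a (-v) x) = τ} = (∅ : Set X) := by
          ext x
          simp only [Set.mem_ofPred_eq, Set.mem_empty_iff_false, iff_false]
          rintro ⟨-, h⟩
          exact hτ ⟨_, h⟩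
        rw [this]
        simp
      simp_rw [h0]
      simp
  choose Q Φ hΦ hcost using hch
  obtain ⟨S', hS1, hS2⟩ := hNEW n k ρ Pr hloc X a ha S N hN d C hCm hsep w Q Φ
    (fun y => hΦ _ ⟨y, rfl⟩)
  refine ⟨S', ?_⟩
  -- the two functions of types
  set c1 : Ty n k S.t N → Gp n → ℝ := fun τ v =>
    (PP n).real {b | Φ τ (tb (TT d τ) (sg F b)) v ≠ Q τ v} +
      gam n * (if Q τ v = pp d τ v then 0 else 1) with hc1
  set c2 : Ty n k S.t N → Gp n → ℝ := fun τ v => eps v +
      gam n * ((PP n).real {b | tb (TT d τ) (sg F b) v ≠ pp d τ v} + eps v) with hc2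
  obtain ⟨i1, e1⟩ := int_types (N := N) ha hCm S μ w c1
  obtain ⟨i2, e2⟩ := int_types (N := N) ha hCm S μ w c2
  have i3 := integrable_unc (N := N) ha hCm S F μ w
  have hmne : MeasurableSet {x | S'.ψ x ≠ S.ψ x} :=
    (measurableSet_eq_fun S'.mψ S.mψ).compl
  have hleft : ∫ x, S'.err F x ∂μ + gam n * μ.real {x | S'.ψ x ≠ S.ψ x} =
      ∫ x, (∑ v ∈ B n N, (if a (-(v + w)) x ∈ C then c1 (tyX S N (a (-v) x)) v else 0) +
        (if ∃ v ∈ B n N, a (-(v + w)) x ∈ C then 0 else S.err F x)) ∂μ := by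
    have h1 : gam n * μ.real {x | S'.ψ x ≠ S.ψ x} =
        ∫ x, Set.indicator {x | S'.ψ x ≠ S.ψ x} (fun _ => gam n) x ∂μ := by
      rw [integral_indicator_const _ hmne, smul_eq_mul, mul_comm]
    rw [h1, ← integral_add (integrable_err S' F μ) ((integrable_const _).indicator hmne)]
    refine integral_congr_ae (Filter.Eventually.of_forall fun x => ?_)
    simp only
    by_cases hx : ∃ v ∈ B n N, a (-(v + w)) x ∈ C
    · obtain ⟨v₀, hv₀, hC₀⟩ := hx
      rw [if_pos ⟨v₀, hv₀, hC₀⟩, add_zero]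
      rw [pos_sum ha hsep hv₀ hC₀ (fun v => c1 (tyX S N (a (-v) x)) v)]
      obtain ⟨h2, h3⟩ := hS1 x v₀ hv₀ hC₀
      rw [hc1]
      simp only
      congr 1
      · unfold Stage.err
        simp_rw [h2, h3]
        exact stat hPRD F (-v₀) fun ω =>
          Φ (tyX S N (a (-v₀) x)) (tb (TT d (tyX S N (a (-v₀) x))) ω) v₀ ≠
            Q (tyX S N (a (-v₀) x)) v₀
      · rw [pp_ty ha S d x hv₀]
        by_cases h4 : Q (tyX S N (a (-v₀) x)) v₀ = S.ψ x
        · rw [if_pos h4, mul_zero, Set.indicator_of_notMem]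
          simp only [Set.mem_ofPred_eq, not_not]
          rw [h3, h4]
        · rw [if_neg h4, mul_one, Set.indicator_of_mem]
          simp only [Set.mem_ofPred_eq]
          rw [h3]
          exact h4
    · rw [if_neg hx, Finset.sum_eq_zero (fun v hv => if_neg fun h => hx ⟨v, hv, h⟩), zero_add]
      obtain ⟨h2, h3⟩ := hS2 x (fun v hv h => hx ⟨v, hv, h⟩)
      rw [Set.indicator_of_notMem (by simp [h3]), add_zero]
      unfold Stage.err
      simp_rw [h2, h3]
  have hright : ∫ x, maj a C N eps (gam n) (S.err F) w x ∂μ =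
      ∫ x, (∑ v ∈ B n N, (if a (-(v + w)) x ∈ C then c2 (tyX S N (a (-v) x)) v else 0) +
        (if ∃ v ∈ B n N, a (-(v + w)) x ∈ C then 0 else S.err F x)) ∂μ := by
    refine integral_congr_ae (Filter.Eventually.of_forall fun x => ?_)
    simp only
    unfold maj
    congr 1
    refine Finset.sum_congr rfl fun v hv => ?_
    by_cases h : a (-(v + w)) x ∈ C
    · rw [if_pos h, if_pos h, hc2]
      simp only
      rw [eold_eq hPRD ha S F d x hv]
      ring
    · rw [if_neg h, if_neg h]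
  rw [hleft, hright, integral_add i1 i3, integral_add i2 i3, e1, e2]
  exact add_le_add (Finset.sum_le_sum fun τ _ => hcost τ) le_rfl

end

/-- One step of the construction. -/
theorem step (hNEW : S_NEW) (hBOX : S_BOX) (hMAR : S_MAR) (hCNT : S_CNT) (hPRD : S_PRD) :
    S_STEP := by
  intro n k ρ Pr hloc F hF hsol X _ _ a ha μ _ S δ hδ
  classical
  set d : Fin k := F (fun _ => 0) with hd
  set m : ℝ := μ.real Set.univ with hm
  have hm0 : 0 ≤ m := measureReal_nonneg
  set ε : ℝ := δ / (2 * 2 ^ n * (m + 1)) with hε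
  have hε0 : 0 < ε := by positivity
  obtain ⟨N₀, hN₀⟩ := hBOX n k ρ Pr hloc F hF hsol S.t ε hε0
  set N : ℕ := max N₀ (2 * ρ) with hN
  obtain ⟨eps, heps, hsum, hbox⟩ := hN₀ N (le_max_left _ _)
  obtain ⟨C, hCm, hsep, hmax⟩ := hMAR n X a ha (2 * N)
  have h1 := fun w => one hNEW hPRD hloc F hF ha μ S (le_max_right N₀ (2 * ρ)) d hCm hsep eps
    (by exact hbox) w
  obtain ⟨hc0, hc1⟩ := hCNT.2.2 n N
  have hW0 : (0 : ℝ) < ((B n (2 * N)).card : ℝ) := by
    have : 0 < (B n (2 * N)).card := lt_of_lt_of_le hc0 hc1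
    exact_mod_cast this
  have hcard : ((B n N).card : ℝ) ≤ ((B n (2 * N)).card : ℝ) := by exact_mod_cast hc1
  -- integrability of the majorants
  have hmajI : ∀ w, Integrable (maj a C N eps (gam n) (S.err F) w) μ := by
    intro w
    have i1 : Integrable (fun x => ∑ v ∈ B n N, (if a (-(v + w)) x ∈ C then
        (1 + gam n) * eps v + gam n * S.err F x else 0)) μ := by
      refine integrable_finsetSum _ fun v _ => ?_
      have h := ((integrable_const ((1 + gam n) * eps v)).add
        ((integrable_err S F μ).const_mul (gam n))).indicator ((ha.meas (-(v + w))) hCm)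
      refine h.congr (Filter.Eventually.of_forall fun x => ?_)
      by_cases hx : a (-(v + w)) x ∈ C
      · rw [Set.indicator_of_mem (by simpa using hx)]
        simp only
        rw [if_pos hx]
        rfl
      · rw [Set.indicator_of_notMem (by simpa using hx)]
        simp only
        rw [if_neg hx]
    exact i1.add (integrable_unc ha hCm S F μ w)
  -- the average
  have hsumle : ∑ w ∈ B n (2 * N), ∫ x, maj a C N eps (gam n) (S.err F) w x ∂μ ≤
      ∑ w ∈ B n (2 * N), ((1 - gam n) * ∫ x, S.err F x ∂μ + δ) := by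
    rw [← integral_finsetSum _ fun w _ => hmajI w]
    have h2 : ∫ x, ∑ w ∈ B n (2 * N), maj a C N eps (gam n) (S.err F) w x ∂μ ≤
        ∫ x, (((B n (2 * N)).card : ℝ) * ((1 - gam n) * S.err F x) +
          2 * 2 ^ n * ∑ v ∈ B n N, eps v) ∂μ := by
      refine integral_mono (integrable_finsetSum _ fun w _ => hmajI w) ?_ fun x => ?_
      · exact (((integrable_err S F μ).const_mul _).const_mul _).add (integrable_const _)
      · exact sum_maj_le hCNT ha hsep hmax eps heps (S.err F) (err_nonneg S F) x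
    refine h2.trans ?_
    rw [integral_add (((integrable_err S F μ).const_mul _).const_mul _) (integrable_const _),
      integral_const_mul, integral_const_mul, integral_const, smul_eq_mul, Finset.sum_const,
      nsmul_eq_mul, ← hm]
    have h3 : m * (2 * 2 ^ n * ∑ v ∈ B n N, eps v) ≤ ((B n (2 * N)).card : ℝ) * δ := by
      have h4 : ∑ v ∈ B n N, eps v ≤ ε * ((B n (2 * N)).card : ℝ) :=
        hsum.trans (mul_le_mul_of_nonneg_left hcard hε0.le)
      calc m * (2 * 2 ^ n * ∑ v ∈ B n N, eps v)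
          ≤ m * (2 * 2 ^ n * (ε * ((B n (2 * N)).card : ℝ))) := by gcongr
        _ ≤ (m + 1) * (2 * 2 ^ n * (ε * ((B n (2 * N)).card : ℝ))) := by
            gcongr; linarith
        _ = ((B n (2 * N)).card : ℝ) * δ := by
            rw [hε]; field_simp
    nlinarith [h3]
  by_contra hcon
  push Not at hcon
  have h5 : ∑ w ∈ B n (2 * N), ((1 - gam n) * ∫ x, S.err F x ∂μ + δ) <
      ∑ w ∈ B n (2 * N), ∫ x, maj a C N eps (gam n) (S.err F) w x ∂μ := by
    refine Finset.sum_lt_sum_of_nonempty ?_ fun w _ => ?_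
    · rw [← Finset.card_pos]
      exact lt_of_lt_of_le hc0 hc1
    · obtain ⟨S', hS'⟩ := h1 w
      exact lt_of_lt_of_le (hcon S') hS'
  linarith

end Pool.Agent.Y451.FM

end
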